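import Pool.Agent.TH255.QI.All
import Pool.Agent.W851.Had.Schn

/-!
# Existentially definable sets of rational numbers: tools for the density criterion
-/

set_option autoImplicit false

namespace Pool.Agent.Helper794ED

open MvPolynomial
open Pool.Agent.TH255.HC Pool.Agent.TH255.QI

/-- `A` is existentially definable in `ℚ` -/
def ExDef (A : Set ℚ) : Prop :=
  ∃ (n : ℕ) (P : MvPolynomial (Fin (n + 1)) ℤ), ∀ q : ℚ, q ∈ A ↔
    ∃ y : Fin n → ℚ, aeval (Fin.cons q y : Fin (n + 1) → ℚ) P = 0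

lemma exDef_of_dt {Q : ℚ → Prop} (h : DT (fun _ => True) (fun _ v => Q (v 0))) :
    ExDef {x | Q x} := by
  obtain ⟨n, p, S, hp⟩ := DT.final h
  refine ⟨n, p, fun q => ?_⟩
  change Q q ↔ _
  rw [hp Set.univ trivial q]
  constructor
  · rintro ⟨y, hy0, hy, -⟩
    refine ⟨fun i => y i.succ, ?_⟩
    have : (Fin.cons q (fun i => y i.succ) : Fin (n + 1) → ℚ) = y := by
      rw [← hy0]
      exact Fin.cons_self_tail y
    rw [this]
    exact hy
  · rintro ⟨y, hy⟩
    exact ⟨Fin.cons q y, rfl, hy, fun _ _ => Set.mem_univ _⟩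

lemma dt_of_exDef {𝒯 : Set ℚ → Prop} {A : Set ℚ} (h : ExDef A) (i : ℕ) :
    DT 𝒯 (fun _ v => v i ∈ A) := by
  obtain ⟨n, P, hP⟩ := h
  have h0 : DT 𝒯 (fun _ v => v 0 ∈ A) := by
    have h1 : DT 𝒯 (fun _ v => ∃ u : ℕ → ℚ,
        aeval (Fin.cons (v 0) (fun i : Fin n => u i) : Fin (n + 1) → ℚ) P = 0) := by
      refine DT.exs (DT.eq (f := fun w => aeval (Fin.cons (w (2 * 0))
        (fun i : Fin n => w (2 * (i : ℕ) + 1)) : Fin (n + 1) → ℚ) P) ?_ PF.zero)
      refine ⟨rename (Fin.cons 0 (fun i : Fin n => 2 * (i : ℕ) + 1) : Fin (n + 1) → ℕ) P,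
        fun w => ?_⟩
      rw [aeval_rename]
      have : w ∘ (Fin.cons 0 (fun i : Fin n => 2 * (i : ℕ) + 1) : Fin (n + 1) → ℕ) =
          (Fin.cons (w (2 * 0)) (fun i : Fin n => w (2 * (i : ℕ) + 1)) : Fin (n + 1) → ℚ) := by
        funext j
        refine Fin.cases ?_ (fun i => ?_) j
        · rfl
        · rfl
      rw [this]
    refine h1.congr fun _ _ v => ?_
    rw [hP]
    constructor
    · rintro ⟨y, hy⟩
      refine ⟨fun m => if h : m < n then y ⟨m, h⟩ else 0, ?_⟩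
      have : (fun i : Fin n => (fun m => if h : m < n then y ⟨m, h⟩ else 0) (i : ℕ)) = y := by
        funext i
        simp
      rw [this]
      exact hy
    · rintro ⟨u, hu⟩
      exact ⟨_, hu⟩
  exact h0.ren (fun _ => i)

/-- from relative definability over quasi-integers to definability -/
theorem absolute {C δ : ℝ} {Q : ℚ → Prop} (h : DT (Qu C δ) (fun _ v => Q (v 0)))
    {T : Set ℚ} (hT : Qu C δ T) (hD : ∀ i, DT (fun _ => True) (fun _ v => v i ∈ T)) :
    ExDef {x | Q x} := by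
  obtain ⟨p, S, hp⟩ := h
  apply exDef_of_dt
  have h1 : DT (fun _ => True) (fun _ v => ∃ u : ℕ → ℚ, aeval (mix v u) p = 0 ∧
      ∀ s ∈ S, mix v u s ∈ T) := by
    refine DT.exs (P := fun _ v u => aeval (mix v u) p = 0 ∧ ∀ s ∈ S, mix v u s ∈ T) ?_
    have h2 : DT (fun _ => True) (fun _ w => aeval w p = (0 : ℚ) ∧ ∀ s ∈ S, w s ∈ T) :=
      (DT.eq ⟨p, fun _ => rfl⟩ PF.zero).and (DT.list S hD)
    refine h2.congr fun _ _ w => ?_
    have hmix : mix (fun n => w (2 * n)) (fun n => w (2 * n + 1)) = w := by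
      funext n
      obtain ⟨m, rfl | rfl⟩ : ∃ m, n = 2 * m ∨ n = 2 * m + 1 := ⟨n / 2, by omega⟩
      · rw [mix_even]
      · rw [mix_odd]
    change (aeval (mix (fun n => w (2 * n)) (fun n => w (2 * n + 1))) p = (0 : ℚ) ∧
      ∀ s ∈ S, mix (fun n => w (2 * n)) (fun n => w (2 * n + 1)) s ∈ T) ↔ _
    rw [hmix]
  exact h1.congr fun _ _ v => hp T hT v

/-- the denominator of a value of a polynomial -/
lemma den_le {m : ℕ} (P : MvPolynomial (Fin m) ℤ) : ∃ N : ℕ, ∀ a : Fin m → ℚ,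
    ((aeval a P : ℚ)).den ≤ (∏ i, (a i).den) ^ N := by
  obtain ⟨N, G, hG⟩ := clear P
  refine ⟨N, fun a => ?_⟩
  have h1 := hG (fun i => ((a i).num : ℚ)) (fun i => ((a i).den : ℚ))
    (fun i => by exact_mod_cast (a i).den_ne_zero)
  have h2 : (fun i => ((a i).num : ℚ) / ((a i).den : ℚ)) = a := funext fun i => Rat.num_div_den (a i)
  rw [h2] at h1
  have h3 : aeval (Sum.elim (fun i => ((a i).num : ℚ)) (fun i => ((a i).den : ℚ))) G =
      ((aeval (Sum.elim (fun i => (a i).num) (fun i => ((a i).den : ℤ))) G : ℤ) : ℚ) := by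
    have h4 : (Sum.elim (fun i => ((a i).num : ℚ)) (fun i => ((a i).den : ℚ))) =
        ⇑(algebraMap ℤ ℚ) ∘ (Sum.elim (fun i => (a i).num) (fun i => ((a i).den : ℤ))) := by
      funext s
      rcases s with i | i <;> simp
    rw [h4, aeval_algebraMap_apply]
    rfl
  rw [h3] at h1
  set z : ℤ := aeval (Sum.elim (fun i => (a i).num) (fun i => ((a i).den : ℤ))) G
  set M : ℕ := (∏ i, (a i).den) ^ N with hM
  have hM0 : 0 < M := by
    rw [hM]
    exact pow_pos (Finset.prod_pos fun i _ => (a i).den_pos) N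
  have hMq : ((∏ i, ((a i).den : ℚ)) ^ N) = ((M : ℤ) : ℚ) := by
    rw [hM]; push_cast; rfl
  rw [hMq] at h1
  have hMq0 : ((M : ℤ) : ℚ) ≠ 0 := by exact_mod_cast hM0.ne'
  have h5 : (aeval a P : ℚ) = (z : ℚ) / ((M : ℤ) : ℚ) := by
    rw [h1]; field_simp
  rw [h5]
  have h6 := Rat.den_dvd z (M : ℤ)
  exact Nat.le_of_dvd hM0 (by exact_mod_cast h6)

/-- the denominators of the elements `x` of `A` are at most `exp (C (1 + log max(1, |x|)) ^ δ)`,
with `δ < 1 / 2` -/
def Small (A : Set ℚ) : Prop :=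
  ∃ C δ : ℝ, δ < 1 / 2 ∧ ∀ x ∈ A, Real.log x.den ≤ C * (1 + Real.log (max 1 |(x : ℝ)|)) ^ δ

lemma one_le_base (x : ℝ) : 1 ≤ 1 + Real.log (max 1 |x|) := by
  have : 0 ≤ Real.log (max 1 |x|) := Real.log_nonneg (le_max_left _ _)
  linarith

lemma Small.norm {A : Set ℚ} (h : Small A) : ∃ C δ : ℝ, 0 ≤ C ∧ 0 ≤ δ ∧ δ < 1 / 2 ∧
    ∀ x ∈ A, Real.log x.den ≤ C * (1 + Real.log (max 1 |(x : ℝ)|)) ^ δ := by
  obtain ⟨C, δ, hδ, h⟩ := h
  refine ⟨max C 0, max δ 0, le_max_right _ _, le_max_right _ _, max_lt hδ (by norm_num),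
    fun x hx => (h x hx).trans ?_⟩
  have h1 := one_le_base (x : ℝ)
  have h2 : (1 + Real.log (max 1 |(x : ℝ)|)) ^ δ ≤ (1 + Real.log (max 1 |(x : ℝ)|)) ^ (max δ 0) :=
    Real.rpow_le_rpow_of_exponent_le h1 (le_max_left _ _)
  have h3 : 0 ≤ (1 + Real.log (max 1 |(x : ℝ)|)) ^ δ := Real.rpow_nonneg (by linarith) _
  calc C * (1 + Real.log (max 1 |(x : ℝ)|)) ^ δ
      ≤ max C 0 * (1 + Real.log (max 1 |(x : ℝ)|)) ^ δ :=
        mul_le_mul_of_nonneg_right (le_max_left _ _) h3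
    _ ≤ _ := mul_le_mul_of_nonneg_left h2 (le_max_right _ _)

/-- **Polynomial bases.** If every integer is the value of a fixed polynomial at elements of `A` of
polynomial size, then the integers are existentially definable. -/
theorem gen {A : Set ℚ} (hA : ExDef A) (hs : Small A) {m : ℕ} (P : MvPolynomial (Fin m) ℤ) (κ : ℕ)
    (h : ∀ n : ℤ, ∃ a : Fin m → ℚ, (∀ i, a i ∈ A ∧ a i ^ 2 ≤ (2 + (n : ℚ) ^ 2) ^ κ) ∧
      aeval a P = (n : ℚ)) : ExDef {x : ℚ | ∃ z : ℤ, x = z} := by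
  obtain ⟨C, δ, hC, hδ0, hδ, hs⟩ := hs.norm
  obtain ⟨N, hN⟩ := den_le P
  let T : Set ℚ := {t | ∃ a : Fin m → ℚ, (∀ i, a i ∈ A ∧ a i ^ 2 ≤ (2 + t ^ 2) ^ κ) ∧
    aeval a P = t}
  have hT : Qu (N * (m * (C * (1 + κ)))) δ T := by
    refine ⟨fun z => h z, ?_⟩
    rintro t ⟨a, ha, rfl⟩
    set t : ℚ := aeval a P with ht
    have h1 : Real.log (t.den : ℝ) ≤ N * ∑ i, Real.log ((a i).den : ℝ) := by
      have h2 : (t.den : ℝ) ≤ (∏ i, ((a i).den : ℝ)) ^ N := by exact_mod_cast hN a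
      have h3 : (0 : ℝ) < t.den := by exact_mod_cast t.den_pos
      have h4 := Real.log_le_log h3 h2
      rw [Real.log_pow, Real.log_prod (fun i _ => by exact_mod_cast (a i).den_ne_zero)] at h4
      exact h4
    set X : ℝ := max 1 |(t : ℝ)| with hX
    have hX1 : 1 ≤ X := le_max_left _ _
    have hXl : 0 ≤ Real.log X := Real.log_nonneg hX1
    have h5 : ∀ i, Real.log ((a i).den : ℝ) ≤ C * (1 + κ) * (1 + Real.log X) ^ δ := by
      intro i
      have h6 := hs (a i) (ha i).1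
      have h7 : ((a i : ℚ) : ℝ) ^ 2 ≤ (2 + (t : ℝ) ^ 2) ^ κ := by exact_mod_cast (ha i).2
      have h8 : (2 : ℝ) + (t : ℝ) ^ 2 ≤ 3 * X ^ 2 := by
        have e1 : |(t : ℝ)| ≤ X := le_max_right _ _
        have e2 : (t : ℝ) ^ 2 ≤ X ^ 2 := by
          rw [← sq_abs (t : ℝ)]
          exact pow_le_pow_left₀ (abs_nonneg _) e1 2
        nlinarith
      have h9 : (max 1 |((a i : ℚ) : ℝ)|) ^ 2 ≤ (3 * X ^ 2) ^ κ := by
        have e0 : (1 : ℝ) ≤ (3 * X ^ 2) ^ κ := one_le_pow₀ (by nlinarith)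
        rcases le_total (1 : ℝ) |((a i : ℚ) : ℝ)| with e | e
        · rw [max_eq_right e, sq_abs]
          exact h7.trans (pow_le_pow_left₀ (by positivity) h8 κ)
        · rw [max_eq_left e, one_pow]
          exact e0
      have h10 : 2 * Real.log (max 1 |((a i : ℚ) : ℝ)|) ≤ κ * (2 + 2 * Real.log X) := by
        have e1 : (0 : ℝ) < max 1 |((a i : ℚ) : ℝ)| := lt_of_lt_of_le one_pos (le_max_left _ _)
        have e2 := Real.log_le_log (by positivity) h9
        rw [Real.log_pow, Real.log_pow, Real.log_mul (by norm_num) (by positivity),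
          Real.log_pow] at e2
        have e3 : Real.log 3 ≤ 2 := by
          have := Real.log_le_sub_one_of_pos (show (0 : ℝ) < 3 by norm_num)
          linarith
        have e4 : (κ : ℝ) * (Real.log 3 + (2 : ℕ) * Real.log X) ≤ κ * (2 + 2 * Real.log X) := by
          apply mul_le_mul_of_nonneg_left _ (Nat.cast_nonneg _)
          push_cast
          linarith
        push_cast at e2
        push_cast at e4
        linarith
      have h11 : 1 + Real.log (max 1 |((a i : ℚ) : ℝ)|) ≤ (1 + κ) * (1 + Real.log X) := by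
        nlinarith
      have h12 : (1 + Real.log (max 1 |((a i : ℚ) : ℝ)|)) ^ δ ≤
          (1 + κ) * (1 + Real.log X) ^ δ := by
        have e1 := one_le_base ((a i : ℚ) : ℝ)
        have e2 : (1 : ℝ) ≤ 1 + κ := by
          have : (0 : ℝ) ≤ κ := Nat.cast_nonneg _
          linarith
        calc (1 + Real.log (max 1 |((a i : ℚ) : ℝ)|)) ^ δ
            ≤ ((1 + κ) * (1 + Real.log X)) ^ δ := Real.rpow_le_rpow (by linarith) h11 hδ0
          _ = (1 + (κ : ℝ)) ^ δ * (1 + Real.log X) ^ δ :=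
              Real.mul_rpow (by linarith) (by linarith)
          _ ≤ (1 + κ) * (1 + Real.log X) ^ δ := by
              apply mul_le_mul_of_nonneg_right _ (Real.rpow_nonneg (by linarith) _)
              calc (1 + (κ : ℝ)) ^ δ ≤ (1 + (κ : ℝ)) ^ (1 : ℝ) :=
                    Real.rpow_le_rpow_of_exponent_le e2 (by linarith)
                _ = 1 + κ := Real.rpow_one _
      calc Real.log ((a i).den : ℝ) ≤ C * (1 + Real.log (max 1 |((a i : ℚ) : ℝ)|)) ^ δ := h6
        _ ≤ C * ((1 + κ) * (1 + Real.log X) ^ δ) := mul_le_mul_of_nonneg_left h12 hC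
        _ = _ := by ring
    have h13 : ∑ i, Real.log ((a i).den : ℝ) ≤ m * (C * (1 + κ) * (1 + Real.log X) ^ δ) := by
      calc ∑ i, Real.log ((a i).den : ℝ) ≤ ∑ _i : Fin m, C * (1 + κ) * (1 + Real.log X) ^ δ :=
            Finset.sum_le_sum fun i _ => h5 i
        _ = _ := by rw [Finset.sum_const, Finset.card_univ, Fintype.card_fin, nsmul_eq_mul]
    calc Real.log (t.den : ℝ) ≤ N * ∑ i, Real.log ((a i).den : ℝ) := h1
      _ ≤ N * (m * (C * (1 + κ) * (1 + Real.log X) ^ δ)) :=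
          mul_le_mul_of_nonneg_left h13 (Nat.cast_nonneg _)
      _ = _ := by ring
  refine absolute (dt_int hδ) hT fun i => ?_
  -- `T` is existentially definable
  have h1 : DT (fun _ => True) (fun _ v => ∃ u : ℕ → ℚ,
      (∀ j ∈ List.finRange m, u j ∈ A ∧ u j ^ 2 ≤ (2 + v i ^ 2) ^ κ) ∧
        aeval (fun j : Fin m => u j) P = v i) := by
    refine DT.exs (P := fun _ v u => (∀ j ∈ List.finRange m, u j ∈ A ∧
      u j ^ 2 ≤ (2 + v i ^ 2) ^ κ) ∧ aeval (fun j : Fin m => u j) P = v i) ?_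
    refine (DT.list (List.finRange m) (Q := fun j _ w => w (2 * (j : ℕ) + 1) ∈ A ∧
      w (2 * (j : ℕ) + 1) ^ 2 ≤ (2 + w (2 * i) ^ 2) ^ κ) fun j => ?_).and ?_
    · exact (dt_of_exDef hA _).and (DT.le ((PF.var _).pow 2)
        (((PF.lit 2).add ((PF.var _).pow 2)).pow κ))
    · refine DT.eq ?_ (PF.var _)
      refine ⟨rename (fun j : Fin m => 2 * (j : ℕ) + 1) P, fun w => ?_⟩
      rw [aeval_rename]
      rfl
  refine h1.congr fun _ _ v => ?_
  constructor
  · rintro ⟨a, ha, hP⟩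
    have e : ∀ j : Fin m, (if h : (j : ℕ) < m then a ⟨j, h⟩ else 0) = a j := by
      intro j
      rw [dif_pos j.2]
    refine ⟨fun n => if h : n < m then a ⟨n, h⟩ else 0, fun j _ => ?_, ?_⟩
    · simp only [e]
      exact ha j
    · simp only [e]
      exact hP
  · rintro ⟨u, hu, hP⟩
    exact ⟨fun j => u j, fun j => hu j (List.mem_finRange j), hP⟩

end Pool.Agent.Helper794ED
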