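import Pool.Agent.Helper794_ED.Basic

/-!
# The density criterion
-/

set_option autoImplicit false

namespace Pool.Agent.Helper794ED

open MvPolynomial
open Pool.Agent.TH255.HC Pool.Agent.TH255.QI
open Pool.Agent.W851.Had

lemma flat (S : ℕ → Prop) (m : ℕ) : ∀ l : List ℕ, (∀ y ∈ l, SumH S m y) →
    SumH S (l.length * m) l.sum := by
  intro l
  induction l with
  | nil =>
    intro _
    refine ⟨[], ?_, ?_, rfl⟩
    · simp
    · simp
  | cons y l ih =>
    intro h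
    have h1 := h y (by simp)
    have h2 := ih fun z hz => h z (by simp [hz])
    have h3 := SumH_add S m (l.length * m) (y + l.sum) ⟨y, l.sum, h1, h2, rfl⟩
    rw [List.length_cons, List.sum_cons, Nat.succ_mul, add_comm (l.length * m) m]
    exact h3

/-- For some `h` the positive integers which are sums of at most `h` natural numbers from `A` have
positive lower density. -/
def Dense (A : Set ℚ) : Prop :=
  ∃ (h : ℕ) (c : ℝ) (N₀ : ℕ), 0 < c ∧ ∀ N : ℕ, N₀ ≤ N →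
    c * N ≤ ({n : ℕ | 1 ≤ n ∧ n ≤ N ∧
      ∃ l : List ℕ, l.length ≤ h ∧ (∀ a ∈ l, (a : ℚ) ∈ A) ∧ l.sum = n}.ncard : ℝ)

/-- the natural numbers from `A` together with `0`, `1` are a basis -/
lemma basis {A : Set ℚ} (hA : Dense A) : ∃ K : ℕ, ∀ n : ℕ, ∃ f : Fin K → ℕ,
    (∀ j, f j = 0 ∨ f j = 1 ∨ ((f j : ℕ) : ℚ) ∈ A) ∧ ∑ j, f j = n := by
  classical
  obtain ⟨h, c, N₀, hc, hd⟩ := hA
  let B : ℕ → Prop := fun m => m = 0 ∨ m = 1 ∨ ((m : ℕ) : ℚ) ∈ A
  let S : ℕ → Prop := SumH B (h + 1)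
  have hB0 : B 0 := Or.inl rfl
  have hS0 : S 0 := SumH_zero B hB0 (h + 1)
  have hS1 : S 1 := by
    refine ⟨1 :: List.replicate h 0, by simp, ?_, by simp⟩
    intro y hy
    rcases List.mem_cons.1 hy with rfl | hy
    · exact Or.inr (Or.inl rfl)
    · rw [List.eq_of_mem_replicate hy]
      exact hB0
  -- the counting function
  have hcnt : ∀ N : ℕ, N₀ ≤ N → c * N ≤ cnt S N := by
    intro N hN
    refine (hd N hN).trans ?_
    have h1 : {n : ℕ | 1 ≤ n ∧ n ≤ N ∧ ∃ l : List ℕ, l.length ≤ h ∧ (∀ a ∈ l, (a : ℚ) ∈ A) ∧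
        l.sum = n} ⊆ (((Finset.Icc 1 N).filter S : Finset ℕ) : Set ℕ) := by
      rintro n ⟨hn1, hn2, l, hl, hlA, hls⟩
      rw [Finset.coe_filter]
      refine ⟨Finset.mem_Icc.2 ⟨hn1, hn2⟩, ?_⟩
      refine ⟨l ++ List.replicate (h + 1 - l.length) 0, ?_, ?_, ?_⟩
      · rw [List.length_append, List.length_replicate]
        omega
      · intro y hy
        rcases List.mem_append.1 hy with hy | hy
        · exact Or.inr (Or.inr (hlA y hy))
        · rw [List.eq_of_mem_replicate hy]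
          exact hB0
      · rw [List.sum_append, hls]
        simp
    have h2 := Set.ncard_le_ncard h1 (Finset.finite_toSet _)
    rw [Set.ncard_coe_finset] at h2
    unfold cnt
    convert (Nat.cast_le (α := ℝ)).2 h2
  obtain ⟨N₁, hN₁, hN₁'⟩ : ∃ N₁ : ℕ, N₀ ≤ N₁ ∧ 1 ≤ N₁ := ⟨max N₀ 1, le_max_left _ _, le_max_right _ _⟩
  have hN1r : (1 : ℝ) ≤ N₁ := by exact_mod_cast hN₁'
  let δ : ℝ := min c (1 / N₁)
  have hδ0 : 0 < δ := lt_min hc (by positivity)
  have hδ1 : δ ≤ 1 := (min_le_right _ _).trans (by rw [div_le_one (by linarith)]; exact hN1r)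
  have hS : ∀ n : ℕ, δ * n ≤ cnt S n := by
    intro n
    rcases le_or_gt N₁ n with hn | hn
    · exact (mul_le_mul_of_nonneg_right (min_le_left _ _) (Nat.cast_nonneg _)).trans
        (hcnt n (hN₁.trans hn))
    · rcases Nat.eq_zero_or_pos n with h0 | h0
      · rw [h0]; simp
      · have h1 : 1 ≤ cnt S n := by
          unfold cnt
          apply Finset.card_pos.2
          exact ⟨1, Finset.mem_filter.2 ⟨Finset.mem_Icc.2 ⟨le_rfl, h0⟩, hS1⟩⟩
        have h2 : δ * n ≤ 1 / N₁ * N₁ := by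
          have e1 : (n : ℝ) ≤ N₁ := by exact_mod_cast hn.le
          have e2 : δ ≤ 1 / N₁ := min_le_right _ _
          have e3 : (0 : ℝ) ≤ 1 / N₁ := by positivity
          exact mul_le_mul e2 e1 (Nat.cast_nonneg _) e3
        rw [one_div, inv_mul_cancel₀ (by linarith)] at h2
        exact h2.trans (by exact_mod_cast h1)
  obtain ⟨k, hk⟩ := exists_nat_ge (1 / δ)
  have hk' : 1 ≤ δ * k := by
    rw [div_le_iff₀ hδ0] at hk
    linarith
  refine ⟨(k + k) * (h + 1), fun n => ?_⟩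
  obtain ⟨L, hL1, hL2, hL3⟩ := schn S n k δ hδ1 hk' hS0 (fun n _ => hS n) n le_rfl
  have h1 := flat B (h + 1) L hL2
  rw [hL1, hL3] at h1
  obtain ⟨l, hl1, hl2, hl3⟩ := h1
  subst hl3
  rw [← hl1]
  refine ⟨l.get, fun j => hl2 _ (List.get_mem l j), ?_⟩
  rw [← List.sum_ofFn, List.ofFn_get]

/-- adding `0`, `1`, `-1` -/
lemma ExDef.add {A : Set ℚ} (h : ExDef A) : ExDef {x | x ∈ A ∨ x = 0 ∨ x = 1 ∨ x = -1} := by
  obtain ⟨n, P, hP⟩ := h
  refine ⟨n, P * (X 0 * (X 0 - 1) * (X 0 + 1)), fun q => ?_⟩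
  have key : ∀ y : Fin n → ℚ, aeval (Fin.cons q y : Fin (n + 1) → ℚ)
      (P * (X 0 * (X 0 - 1) * (X 0 + 1))) =
      aeval (Fin.cons q y : Fin (n + 1) → ℚ) P * (q * (q - 1) * (q + 1)) := by
    intro y
    simp only [map_mul, map_sub, map_add, map_one, aeval_X, Fin.cons_zero]
  change (q ∈ A ∨ q = 0 ∨ q = 1 ∨ q = -1) ↔ _
  rw [hP]
  constructor
  · rintro (⟨y, hy⟩ | h | h | h)
    · exact ⟨y, by rw [key, hy, zero_mul]⟩
    · exact ⟨fun _ => 0, by rw [key, h]; ring⟩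
    · exact ⟨fun _ => 0, by rw [key, h]; ring⟩
    · exact ⟨fun _ => 0, by rw [key, h]; ring⟩
  · rintro ⟨y, hy⟩
    rw [key] at hy
    rcases mul_eq_zero.1 hy with h1 | h1
    · exact Or.inl ⟨y, h1⟩
    · rcases mul_eq_zero.1 h1 with h2 | h2
      · rcases mul_eq_zero.1 h2 with h3 | h3
        · exact Or.inr (Or.inl h3)
        · exact Or.inr (Or.inr (Or.inl (by linarith)))
      · exact Or.inr (Or.inr (Or.inr (by linarith)))

lemma Small.add {A : Set ℚ} (h : Small A) : Small {x | x ∈ A ∨ x = 0 ∨ x = 1 ∨ x = -1} := by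
  obtain ⟨C, δ, hC, hδ0, hδ, h⟩ := h.norm
  refine ⟨C, δ, hδ, ?_⟩
  have key : ∀ x : ℚ, x.den = 1 → Real.log x.den ≤ C * (1 + Real.log (max 1 |(x : ℝ)|)) ^ δ := by
    intro x hx
    rw [hx, Nat.cast_one, Real.log_one]
    exact mul_nonneg hC (Real.rpow_nonneg (by linarith [one_le_base (x : ℝ)]) _)
  rintro x (hx | rfl | rfl | rfl)
  · exact h x hx
  · exact key _ rfl
  · exact key _ rfl
  · exact key _ rfl

/-- **The density criterion.** -/
theorem density {A : Set ℚ} (hA : ExDef A) (hs : Small A) (hd : Dense A) :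
    ExDef {x : ℚ | ∃ z : ℤ, x = z} := by
  obtain ⟨K, hK⟩ := basis hd
  refine gen hA.add hs.add (m := K + 1) (X 0 * ∑ j : Fin K, X j.succ) 1 fun n => ?_
  obtain ⟨f, hf, hsum⟩ := hK n.natAbs
  have habs : ((n.natAbs : ℕ) : ℚ) = ((|n| : ℤ) : ℚ) := Nat.cast_natAbs n
  have hsq : ∀ j, ((f j : ℕ) : ℚ) ^ 2 ≤ (2 + (n : ℚ) ^ 2) ^ 1 := by
    intro j
    have h1 : f j ≤ n.natAbs := by
      rw [← hsum]
      exact Finset.single_le_sum (f := f) (fun _ _ => Nat.zero_le _) (Finset.mem_univ j)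
    have h2 : (f j) ^ 2 ≤ n.natAbs ^ 2 := Nat.pow_le_pow_left h1 2
    have h3 : ((n.natAbs : ℕ) : ℚ) ^ 2 = (n : ℚ) ^ 2 := by
      rw [habs, ← Int.cast_pow, sq_abs, Int.cast_pow]
    have h4 : ((f j : ℕ) : ℚ) ^ 2 ≤ ((n.natAbs : ℕ) : ℚ) ^ 2 := by exact_mod_cast h2
    rw [pow_one]
    linarith
  have hone : (1 : ℚ) ^ 2 ≤ (2 + (n : ℚ) ^ 2) ^ 1 := by
    rw [pow_one]
    nlinarith [sq_nonneg (n : ℚ)]
  have hmone : (-1 : ℚ) ^ 2 ≤ (2 + (n : ℚ) ^ 2) ^ 1 := by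
    rw [pow_one]
    nlinarith [sq_nonneg (n : ℚ)]
  have hmem : ∀ j, ((f j : ℕ) : ℚ) ∈ {x : ℚ | x ∈ A ∨ x = 0 ∨ x = 1 ∨ x = -1} := by
    intro j
    rcases hf j with h | h | h
    · rw [h]; exact Or.inr (Or.inl (by simp))
    · rw [h]; exact Or.inr (Or.inr (Or.inl (by simp)))
    · exact Or.inl h
  have hsumq : ∑ j, ((f j : ℕ) : ℚ) = ((n.natAbs : ℕ) : ℚ) := by
    rw [← hsum]; push_cast; rfl
  rcases le_total 0 n with hn | hn
  · refine ⟨Fin.cons 1 (fun j => ((f j : ℕ) : ℚ)), fun i => ?_, ?_⟩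
    · refine Fin.cases ?_ (fun j => ?_) i
      · exact ⟨Or.inr (Or.inr (Or.inl rfl)), hone⟩
      · exact ⟨hmem j, hsq j⟩
    · rw [map_mul, map_sum, aeval_X, Fin.cons_zero, one_mul]
      simp only [aeval_X, Fin.cons_succ]
      rw [hsumq, habs, abs_of_nonneg hn]
  · refine ⟨Fin.cons (-1) (fun j => ((f j : ℕ) : ℚ)), fun i => ?_, ?_⟩
    · refine Fin.cases ?_ (fun j => ?_) i
      · exact ⟨Or.inr (Or.inr (Or.inr rfl)), hmone⟩
      · exact ⟨hmem j, hsq j⟩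
    · rw [map_mul, map_sum, aeval_X, Fin.cons_zero]
      simp only [aeval_X, Fin.cons_succ]
      rw [hsumq, habs, abs_of_nonpos hn, Int.cast_neg]
      ring

/-- positive upper Banach density -/
def Banach (A : Set ℚ) : Prop :=
  ∃ c : ℝ, 0 < c ∧ ∀ L₀ : ℕ, ∃ L : ℕ, L₀ ≤ L ∧ ∃ x : ℤ,
    c * L ≤ ({a : ℤ | x ≤ a ∧ a < x + L ∧ (a : ℚ) ∈ A}.ncard : ℝ)

/-- finitely many translates of the difference set cover the integers -/
lemma translates {A : Set ℚ} (hB : Banach A) : ∃ F : Finset ℤ, ∀ n : ℤ, ∃ f ∈ F, ∃ a b : ℤ,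
    (a : ℚ) ∈ A ∧ (b : ℚ) ∈ A ∧ n = a - b + f := by
  classical
  obtain ⟨c, hc, hB⟩ := hB
  let Pk : Finset ℤ → Prop := fun F => ∀ f ∈ F, ∀ g ∈ F, f ≠ g → ∀ a b : ℤ,
    (a : ℚ) ∈ A → (b : ℚ) ∈ A → a + f ≠ b + g
  -- such families are small
  have hsmall : ∀ F, Pk F → (F.card : ℝ) * c ≤ 1 := by
    intro F hF
    by_contra hcon
    push Not at hcon
    obtain ⟨M, hM⟩ : ∃ M : ℕ, ∀ f ∈ F, f.natAbs ≤ M := ⟨F.sup Int.natAbs, fun f hf =>
      Finset.le_sup (f := Int.natAbs) hf⟩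
    obtain ⟨L₀, hL₀⟩ := exists_nat_gt ((2 * M : ℝ) / (F.card * c - 1))
    obtain ⟨L, hL, x, hx⟩ := hB L₀
    let W : Finset ℤ := (Finset.Ico x (x + L)).filter fun a => (a : ℚ) ∈ A
    have hW : (W : Set ℤ) = {a : ℤ | x ≤ a ∧ a < x + L ∧ (a : ℚ) ∈ A} := by
      ext a
      simp only [W, Finset.coe_filter, Finset.mem_Ico, Set.mem_ofPred_eq, and_assoc]
    rw [← hW, Set.ncard_coe_finset] at hx
    have h1 : (F.biUnion fun f => W.image fun a => a + f).card = F.card * W.card := by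
      rw [Finset.card_biUnion]
      · rw [Finset.sum_congr rfl (g := fun _ => W.card), Finset.sum_const, smul_eq_mul]
        intro f _
        exact Finset.card_image_of_injective _ (add_left_injective f)
      · intro f hf g hg hfg
        rw [Function.onFun, Finset.disjoint_left]
        intro y hy hy'
        obtain ⟨a, ha, rfl⟩ := Finset.mem_image.1 hy
        obtain ⟨b, hb, hab⟩ := Finset.mem_image.1 hy'
        exact hF f hf g hg hfg a b (Finset.mem_filter.1 ha).2 (Finset.mem_filter.1 hb).2 hab.symm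
    have h2 : (F.biUnion fun f => W.image fun a => a + f) ⊆ Finset.Ico (x - M) (x + L + M) := by
      intro y hy
      obtain ⟨f, hf, hy⟩ := Finset.mem_biUnion.1 hy
      obtain ⟨a, ha, rfl⟩ := Finset.mem_image.1 hy
      have h3 := Finset.mem_Ico.1 (Finset.mem_filter.1 ha).1
      have h4 := hM f hf
      rw [Finset.mem_Ico]
      omega
    have h3 := Finset.card_le_card h2
    rw [h1, Int.card_Ico] at h3
    have h4 : (x + L + M - (x - M) : ℤ).toNat = L + 2 * M := by omega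
    rw [h4] at h3
    have h5 : (F.card : ℝ) * W.card ≤ L + 2 * M := by exact_mod_cast h3
    have h6 : (0 : ℝ) < F.card * c - 1 := by linarith
    have h7 : (2 * M : ℝ) < L₀ * (F.card * c - 1) := by rwa [div_lt_iff₀ h6] at hL₀
    have h8 : (L₀ : ℝ) ≤ L := by exact_mod_cast hL
    have h9 : (F.card : ℝ) * (c * L) ≤ F.card * W.card :=
      mul_le_mul_of_nonneg_left hx (Nat.cast_nonneg _)
    have h10 : (L₀ : ℝ) * (F.card * c - 1) ≤ L * (F.card * c - 1) :=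
      mul_le_mul_of_nonneg_right h8 h6.le
    nlinarith
  -- `A` is not empty
  obtain ⟨a₀, ha₀⟩ : ∃ a : ℤ, (a : ℚ) ∈ A := by
    obtain ⟨L, hL, x, hx⟩ := hB 1
    by_contra hne
    push Not at hne
    have : {a : ℤ | x ≤ a ∧ a < x + L ∧ (a : ℚ) ∈ A} = ∅ := by
      rw [Set.eq_empty_iff_forall_notMem]
      rintro a ⟨_, _, ha⟩
      exact hne a ha
    rw [this, Set.ncard_empty, Nat.cast_zero] at hx
    have h1 : (1 : ℝ) ≤ L := by exact_mod_cast hL
    nlinarith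
  -- a maximal family
  obtain ⟨k, hk⟩ := exists_nat_gt (1 / c)
  have hlt : ∀ F, Pk F → F.card < k := by
    intro F hF
    have h1 := hsmall F hF
    rw [← le_div_iff₀ hc] at h1
    exact_mod_cast lt_of_le_of_lt h1 hk
  obtain ⟨F, hF, hmax⟩ : ∃ F, Pk F ∧ ∀ F', Pk F' → F'.card ≤ F.card := by
    have hex : ∃ m, (∃ F, Pk F ∧ F.card = m) := ⟨0, ∅, by simp [Pk], rfl⟩
    let m := Nat.findGreatest (fun m => ∃ F, Pk F ∧ F.card = m) k
    have hm : ∃ F, Pk F ∧ F.card = m :=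
      Nat.findGreatest_spec (P := fun m => ∃ F, Pk F ∧ F.card = m) (Nat.zero_le k)
        ⟨∅, by simp [Pk], rfl⟩
    obtain ⟨F, hF, hFm⟩ := hm
    refine ⟨F, hF, fun F' hF' => ?_⟩
    rw [hFm]
    exact Nat.le_findGreatest (hlt F' hF').le ⟨F', hF', rfl⟩
  refine ⟨F, fun n => ?_⟩
  by_cases hn : n ∈ F
  · exact ⟨n, hn, a₀, a₀, ha₀, ha₀, by ring⟩
  · have h1 : ¬ Pk (insert n F) := by
      intro h
      have := hmax _ h
      rw [Finset.card_insert_of_notMem hn] at this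
      omega
    simp only [Pk] at h1
    push Not at h1
    obtain ⟨f, hf, g, hg, hfg, a, b, ha, hb, hab⟩ := h1
    rcases Finset.mem_insert.1 hf with rfl | hf'
    · rcases Finset.mem_insert.1 hg with rfl | hg'
      · exact absurd rfl hfg
      · exact ⟨g, hg', b, a, hb, ha, by linarith⟩
    · rcases Finset.mem_insert.1 hg with rfl | hg'
      · exact ⟨f, hf', a, b, ha, hb, by linarith⟩
      · exact absurd hab (hF f hf' g hg' hfg a b ha hb)

/-- **Sets of integers of positive upper Banach density.** -/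
theorem banach {A : Set ℚ} (hA : ExDef A) (hZ : ∀ x ∈ A, ∃ z : ℤ, x = z) (hB : Banach A) :
    ExDef {x : ℚ | ∃ z : ℤ, x = z} := by
  obtain ⟨F, hF⟩ := translates hB
  apply exDef_of_dt
  have h1 : DT (fun _ => True) (fun _ v => ∃ u : ℕ → ℚ, (u 0 ∈ A ∧ u 1 ∈ A) ∧
      (∏ f ∈ F, (u 2 - (f : ℚ)) = 0 ∧ v 0 = u 0 - u 1 + u 2)) := by
    refine DT.exs (P := fun _ v u => (u 0 ∈ A ∧ u 1 ∈ A) ∧
      (∏ f ∈ F, (u 2 - (f : ℚ)) = 0 ∧ v 0 = u 0 - u 1 + u 2)) ?_
    refine ((dt_of_exDef hA _).and (dt_of_exDef hA _)).and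
      ((DT.eq ?_ PF.zero).and (DT.eq (PF.var _) (((PF.var _).sub (PF.var _)).add (PF.var _))))
    exact ⟨∏ f ∈ F, (X (2 * 2 + 1) - C f), fun w => by
      rw [map_prod]
      exact Finset.prod_congr rfl fun f _ => by simp⟩
  refine h1.congr fun _ _ v => ?_
  constructor
  · rintro ⟨z, hz⟩
    obtain ⟨f, hf, a, b, ha, hb, hzab⟩ := hF z
    refine ⟨fun i => if i = 0 then (a : ℚ) else if i = 1 then (b : ℚ) else (f : ℚ), ⟨?_, ?_⟩, ?_, ?_⟩
    · simpa using ha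
    · simpa using hb
    · apply Finset.prod_eq_zero hf
      simp
    · rw [hz, hzab]
      push_cast
      simp
  · rintro ⟨u, ⟨h0, h1⟩, h2, h3⟩
    obtain ⟨a, ha⟩ := hZ _ h0
    obtain ⟨b, hb⟩ := hZ _ h1
    rw [Finset.prod_eq_zero_iff] at h2
    obtain ⟨f, _, hf⟩ := h2
    refine ⟨a - b + f, ?_⟩
    rw [h3, ha, hb]
    push_cast
    linarith

end Pool.Agent.Helper794ED
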