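import Pool.Agent.Helper794_ED.Dens

/-!
# Values of polynomials
-/

set_option autoImplicit false

namespace Pool.Agent.Helper794ED

open MvPolynomial
open Pool.Agent.TH255.HC Pool.Agent.TH255.QI
open Pool.Agent.W851.Had

/-- For some `h` the positive integers which are sums of at most `h` natural numbers in `S₀` have
positive lower density. -/
def DenseN (S₀ : ℕ → Prop) : Prop :=
  ∃ (h : ℕ) (c : ℝ) (N₀ : ℕ), 0 < c ∧ ∀ N : ℕ, N₀ ≤ N →
    c * N ≤ ({n : ℕ | 1 ≤ n ∧ n ≤ N ∧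
      ∃ l : List ℕ, l.length ≤ h ∧ (∀ a ∈ l, S₀ a) ∧ l.sum = n}.ncard : ℝ)

/-- the natural numbers in `S₀` together with `0`, `1` are a basis -/
lemma basisN {S₀ : ℕ → Prop} (hA : DenseN S₀) : ∃ K : ℕ, ∀ n : ℕ, ∃ f : Fin K → ℕ,
    (∀ j, f j = 0 ∨ f j = 1 ∨ S₀ (f j)) ∧ ∑ j, f j = n := by
  classical
  obtain ⟨h, c, N₀, hc, hd⟩ := hA
  let B : ℕ → Prop := fun m => m = 0 ∨ m = 1 ∨ S₀ m
  let S : ℕ → Prop := SumH B (h + 1)
  have hB0 : B 0 := Or.inl rfl
  have hS0 : S 0 := SumH_zero B hB0 (h + 1)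
  have hS1 : S 1 := by
    refine ⟨1 :: List.replicate h 0, by simp, ?_, by simp⟩
    intro y hy
    rcases List.mem_cons.1 hy with rfl | hy
    · exact Or.inr (Or.inl rfl)
    · rw [List.eq_of_mem_replicate hy]
      exact hB0
  -- the counting function
  have hcnt : ∀ N : ℕ, N₀ ≤ N → c * N ≤ cnt S N := by
    intro N hN
    refine (hd N hN).trans ?_
    have h1 : {n : ℕ | 1 ≤ n ∧ n ≤ N ∧ ∃ l : List ℕ, l.length ≤ h ∧ (∀ a ∈ l, S₀ a) ∧
        l.sum = n} ⊆ (((Finset.Icc 1 N).filter S : Finset ℕ) : Set ℕ) := by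
      rintro n ⟨hn1, hn2, l, hl, hlA, hls⟩
      rw [Finset.coe_filter]
      refine ⟨Finset.mem_Icc.2 ⟨hn1, hn2⟩, ?_⟩
      refine ⟨l ++ List.replicate (h + 1 - l.length) 0, ?_, ?_, ?_⟩
      · rw [List.length_append, List.length_replicate]
        omega
      · intro y hy
        rcases List.mem_append.1 hy with hy | hy
        · exact Or.inr (Or.inr (hlA y hy))
        · rw [List.eq_of_mem_replicate hy]
          exact hB0
      · rw [List.sum_append, hls]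
        simp
    have h2 := Set.ncard_le_ncard h1 (Finset.finite_toSet _)
    rw [Set.ncard_coe_finset] at h2
    unfold cnt
    convert (Nat.cast_le (α := ℝ)).2 h2
  obtain ⟨N₁, hN₁, hN₁'⟩ : ∃ N₁ : ℕ, N₀ ≤ N₁ ∧ 1 ≤ N₁ := ⟨max N₀ 1, le_max_left _ _, le_max_right _ _⟩
  have hN1r : (1 : ℝ) ≤ N₁ := by exact_mod_cast hN₁'
  let δ : ℝ := min c (1 / N₁)
  have hδ0 : 0 < δ := lt_min hc (by positivity)
  have hδ1 : δ ≤ 1 := (min_le_right _ _).trans (by rw [div_le_one (by linarith)]; exact hN1r)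
  have hS : ∀ n : ℕ, δ * n ≤ cnt S n := by
    intro n
    rcases le_or_gt N₁ n with hn | hn
    · exact (mul_le_mul_of_nonneg_right (min_le_left _ _) (Nat.cast_nonneg _)).trans
        (hcnt n (hN₁.trans hn))
    · rcases Nat.eq_zero_or_pos n with h0 | h0
      · rw [h0]; simp
      · have h1 : 1 ≤ cnt S n := by
          unfold cnt
          apply Finset.card_pos.2
          exact ⟨1, Finset.mem_filter.2 ⟨Finset.mem_Icc.2 ⟨le_rfl, h0⟩, hS1⟩⟩
        have h2 : δ * n ≤ 1 / N₁ * N₁ := by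
          have e1 : (n : ℝ) ≤ N₁ := by exact_mod_cast hn.le
          have e2 : δ ≤ 1 / N₁ := min_le_right _ _
          have e3 : (0 : ℝ) ≤ 1 / N₁ := by positivity
          exact mul_le_mul e2 e1 (Nat.cast_nonneg _) e3
        rw [one_div, inv_mul_cancel₀ (by linarith)] at h2
        exact h2.trans (by exact_mod_cast h1)
  obtain ⟨k, hk⟩ := exists_nat_ge (1 / δ)
  have hk' : 1 ≤ δ * k := by
    rw [div_le_iff₀ hδ0] at hk
    linarith
  refine ⟨(k + k) * (h + 1), fun n => ?_⟩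
  obtain ⟨L, hL1, hL2, hL3⟩ := schn S n k δ hδ1 hk' hS0 (fun n _ => hS n) n le_rfl
  have h1 := flat B (h + 1) L hL2
  rw [hL1, hL3] at h1
  obtain ⟨l, hl1, hl2, hl3⟩ := h1
  subst hl3
  rw [← hl1]
  refine ⟨l.get, fun j => hl2 _ (List.get_mem l j), ?_⟩
  rw [← List.sum_ofFn, List.ofFn_get]

/-- `gen` for variables in a finite type -/
lemma genF {A : Set ℚ} (hA : ExDef A) (hs : Small A) {ι : Type} [Fintype ι]
    (P : MvPolynomial ι ℤ) (κ : ℕ)
    (h : ∀ n : ℤ, ∃ a : ι → ℚ, (∀ i, a i ∈ A ∧ a i ^ 2 ≤ (2 + (n : ℚ) ^ 2) ^ κ) ∧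
      aeval a P = (n : ℚ)) : ExDef {x : ℚ | ∃ z : ℤ, x = z} := by
  refine gen hA hs (rename (Fintype.equivFin ι) P) κ fun n => ?_
  obtain ⟨a, ha, hP⟩ := h n
  refine ⟨a ∘ (Fintype.equivFin ι).symm, fun i => ha _, ?_⟩
  rw [aeval_rename, Function.comp_assoc, Equiv.symm_comp_self, Function.comp_id, hP]

/-- **Values of polynomials.** If the sums of boundedly many natural numbers which are values of a
fixed polynomial at elements of `A` of polynomial size have positive lower density, then the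
integers are existentially definable. -/
theorem values {A : Set ℚ} (hA : ExDef A) (hs : Small A) {m : ℕ} (P : MvPolynomial (Fin m) ℤ)
    (κ : ℕ) (hd : DenseN fun s => ∃ a : Fin m → ℚ,
      (∀ i, a i ∈ A ∧ a i ^ 2 ≤ (2 + (s : ℚ) ^ 2) ^ κ) ∧ aeval a P = (s : ℚ)) :
    ExDef {x : ℚ | ∃ z : ℤ, x = z} := by
  obtain ⟨K, hK⟩ := basisN hd
  refine genF hA.add hs.add (ι := Option (Fin K × Option (Option (Fin m))))
    (X none * ∑ j : Fin K, (X (some (j, none)) *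
      rename (fun i => some (j, some (some i))) P + X (some (j, some none)))) κ fun n => ?_
  obtain ⟨f, hf, hsum⟩ := hK n.natAbs
  have habs : ((n.natAbs : ℕ) : ℚ) = ((|n| : ℤ) : ℚ) := Nat.cast_natAbs n
  have hsq : ∀ j, ((f j : ℕ) : ℚ) ^ 2 ≤ (n : ℚ) ^ 2 := by
    intro j
    have h1 : f j ≤ n.natAbs := by
      rw [← hsum]
      exact Finset.single_le_sum (f := f) (fun _ _ => Nat.zero_le _) (Finset.mem_univ j)
    have h2 : (f j) ^ 2 ≤ n.natAbs ^ 2 := Nat.pow_le_pow_left h1 2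
    have h3 : ((n.natAbs : ℕ) : ℚ) ^ 2 = (n : ℚ) ^ 2 := by
      rw [habs, ← Int.cast_pow, sq_abs, Int.cast_pow]
    have h4 : ((f j : ℕ) : ℚ) ^ 2 ≤ ((n.natAbs : ℕ) : ℚ) ^ 2 := by exact_mod_cast h2
    linarith
  have hbase : (1 : ℚ) ≤ (2 + (n : ℚ) ^ 2) ^ κ := one_le_pow₀ (by nlinarith [sq_nonneg (n : ℚ)])
  -- the witnesses for one summand
  have hw : ∀ j, ∃ (u v : ℚ) (a : Fin m → ℚ), (u = 0 ∨ u = 1) ∧ (v = 0 ∨ v = 1) ∧
      (∀ i, (a i ∈ A ∨ a i = 0) ∧ a i ^ 2 ≤ (2 + (n : ℚ) ^ 2) ^ κ) ∧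
      u * aeval a P + v = ((f j : ℕ) : ℚ) := by
    intro j
    have hzero : ((0 : ℚ) : ℚ) ^ 2 ≤ (2 + (n : ℚ) ^ 2) ^ κ := by
      rw [zero_pow two_ne_zero]
      linarith
    rcases hf j with h | h | ⟨a, ha, hP⟩
    · exact ⟨0, 0, fun _ => 0, Or.inl rfl, Or.inl rfl, fun _ => ⟨Or.inr rfl, hzero⟩, by
        rw [h]; simp⟩
    · exact ⟨0, 1, fun _ => 0, Or.inl rfl, Or.inr rfl, fun _ => ⟨Or.inr rfl, hzero⟩, by
        rw [h]; simp⟩
    · refine ⟨1, 0, a, Or.inr rfl, Or.inl rfl, fun i => ⟨Or.inl (ha i).1, (ha i).2.trans ?_⟩, by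
        rw [hP]; simp⟩
      apply pow_le_pow_left₀ (by positivity)
      linarith [hsq j]
  choose u v a hu hv ha hval using hw
  have hsumq : ∑ j, ((f j : ℕ) : ℚ) = ((n.natAbs : ℕ) : ℚ) := by
    rw [← hsum]; push_cast; rfl
  obtain ⟨e, he, hen⟩ : ∃ e : ℚ, (e = 1 ∨ e = -1) ∧ e * ((n.natAbs : ℕ) : ℚ) = n := by
    rcases le_total 0 n with hn | hn
    · exact ⟨1, Or.inl rfl, by rw [habs, abs_of_nonneg hn, one_mul]⟩
    · exact ⟨-1, Or.inr rfl, by rw [habs, abs_of_nonpos hn, Int.cast_neg]; ring⟩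
  let b : Option (Fin K × Option (Option (Fin m))) → ℚ := fun s =>
    match s with
    | none => e
    | some (j, none) => u j
    | some (j, some none) => v j
    | some (j, some (some i)) => a j i
  refine ⟨b, fun s => ?_, ?_⟩
  · have h01 : ∀ x : ℚ, (x = 0 ∨ x = 1) → (x ∈ A ∨ x = 0 ∨ x = 1 ∨ x = -1) ∧
        x ^ 2 ≤ (2 + (n : ℚ) ^ 2) ^ κ := by
      rintro x (rfl | rfl)
      · exact ⟨Or.inr (Or.inl rfl), by rw [zero_pow two_ne_zero]; linarith⟩
      · exact ⟨Or.inr (Or.inr (Or.inl rfl)), by rw [one_pow]; exact hbase⟩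
    rcases s with _ | ⟨j, _ | _ | i⟩
    · rcases he with he | he
      · exact h01 e (Or.inr he)
      · refine ⟨Or.inr (Or.inr (Or.inr he)), ?_⟩
        change e ^ 2 ≤ _
        rw [he]
        linarith
    · exact h01 (u j) (hu j)
    · exact h01 (v j) (hv j)
    · refine ⟨?_, (ha j i).2⟩
      rcases (ha j i).1 with h | h
      · exact Or.inl h
      · exact Or.inr (Or.inl h)
  · rw [map_mul, map_sum, aeval_X]
    simp only [map_add, map_mul, aeval_X, aeval_rename]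
    change e * ∑ j, (u j * aeval (a j) P + v j) = (n : ℚ)
    rw [Finset.sum_congr rfl fun j _ => hval j, hsumq, hen]

end Pool.Agent.Helper794ED
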